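import Pool.Agent.Work.MP_b25393_ag.Str.Count

/-! The accumulation set of Chern slopes over an infinite field is an interval. -/

set_option autoImplicit false

open scoped LinearAlgebra.Projectivization

namespace Pool.Agent.Work.MP_b25393_ag.Str

open Projectivization Matrix Filter Topology
open scoped Classical

variable {F : Type*} [Field F]

/-- arrangements of slope bounded away from 2 have a large second Chern number -/
lemma big_of_EE (ε K : ℝ) (hε : 0 < ε) (hK : 0 ≤ K) :
    ∃ D : ℕ, ∀ A : Finset (PP F), nondeg A → D ≤ A.card → ε * CC A ≤ EE A →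
      K * A.card ≤ CC A := by
  set K' : ℝ := 2 * K * (1 + 2 * ε) / (2 * ε) with hK'
  have hK'0 : 0 ≤ K' := by positivity
  obtain ⟨D, hD⟩ := exists_nat_ge (max 6 ((K + 2) * (K' + 2) + 1))
  refine ⟨D, fun A hA hAD hE => ?_⟩
  have hd : max 6 ((K + 2) * (K' + 2) + 1) ≤ (A.card : ℝ) := hD.trans (by exact_mod_cast hAD)
  have hd6 : (6 : ℝ) ≤ A.card := (le_max_left _ _).trans hd
  have hd2 : (K + 2) * (K' + 2) + 1 ≤ (A.card : ℝ) := (le_max_right _ _).trans hd
  obtain ⟨P, hP, hmax⟩ := exists_max A (by have := hA.1; omega)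
  have hoff := card_off A P
  have hnd := hA.2 P
  set k : ℝ := (mult A P : ℝ) with hk
  set j : ℝ := ((off A P).card : ℝ) with hj
  have hd' : (A.card : ℝ) = k + j := by rw [hk, hj]; exact_mod_cast hoff.symm
  have hk2 : 2 ≤ k := by rw [hk]; exact_mod_cast hP
  have hj2 : 2 ≤ j := by
    have : 2 ≤ (off A P).card := by omega
    rw [hj]
    exact_mod_cast this
  have ha := CC_ge A P hP
  have hb := EE_le A P hP
  rw [← hk, ← hj] at ha
  rw [← hj] at hb
  have h1 : ε * ((k - 2) * (j - 1)) ≤ (j - 1) * (j - 2) / 2 :=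
    (mul_le_mul_of_nonneg_left ha hε.le).trans (hE.trans hb)
  have h2 : 2 * ε * (k - 2) ≤ j - 2 := by
    have hj1 : 0 < j - 1 := by linarith
    have : (j - 1) * (2 * ε * (k - 2)) ≤ (j - 1) * (j - 2) := by linarith
    exact le_of_mul_le_mul_left this hj1
  by_cases hbig : K' ≤ k - 2
  · -- j - 1 ≥ (d - 3) 2ε / (1 + 2ε)
    have h3 : 2 * ε * (A.card - 3) ≤ (1 + 2 * ε) * (j - 1) := by
      rw [hd']
      nlinarith
    have h4 : K' * (j - 1) ≤ CC A :=
      (mul_le_mul_of_nonneg_right hbig (by linarith)).trans ha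
    have h5 : 2 * K * (A.card - 3) ≤ K' * (j - 1) := by
      have e1 : K' * (j - 1) = K / ε * ((1 + 2 * ε) * (j - 1)) := by
        rw [hK']
        field_simp
      have e2 : 2 * K * ((A.card : ℝ) - 3) = K / ε * (2 * ε * (A.card - 3)) := by
        field_simp
      rw [e1, e2]
      exact mul_le_mul_of_nonneg_left h3 (by positivity)
    nlinarith
  · rw [not_le] at hbig
    have hc := CC_ge' A (mult A P) (by omega) hmax
    rw [← hk] at hc
    have hk0 : 0 < k := by linarith
    have h6 : (K + 2) * A.card ≤ (A.card : ℝ) * (A.card - 1) / k := by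
      rw [le_div_iff₀ hk0]
      have h7 : (K + 2) * k ≤ (A.card : ℝ) - 1 := by
        have : (K + 2) * k ≤ (K + 2) * (K' + 2) :=
          mul_le_mul_of_nonneg_left (by linarith) (by linarith)
        linarith
      calc (K + 2) * A.card * k = A.card * ((K + 2) * k) := by ring
        _ ≤ A.card * (A.card - 1) := mul_le_mul_of_nonneg_left h7 (by linarith)
    linarith

/-- slopes are asymptotically at least 2 -/
lemma EE_ge_neg (ε : ℝ) (hε : 0 < ε) :
    ∃ D : ℕ, ∀ A : Finset (PP F), nondeg A → D ≤ A.card → -(ε * CC A) ≤ EE A := by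
  obtain ⟨D, hD⟩ := exists_nat_ge ((2 + 1 / ε) * (2 + 1 / ε) + 1)
  refine ⟨D, fun A hA hAD => ?_⟩
  have hd : (2 + 1 / ε) * (2 + 1 / ε) + 1 ≤ (A.card : ℝ) := hD.trans (by exact_mod_cast hAD)
  obtain ⟨P, hP, hmax⟩ := exists_max A (by have := hA.1; omega)
  have hoff := card_off A P
  have hnd := hA.2 P
  set k : ℝ := (mult A P : ℝ) with hk
  set j : ℝ := ((off A P).card : ℝ) with hj
  have hd' : (A.card : ℝ) = k + j := by rw [hk, hj]; exact_mod_cast hoff.symm
  have hk2 : 2 ≤ k := by rw [hk]; exact_mod_cast hP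
  have hj2 : 2 ≤ j := by
    have : 2 ≤ (off A P).card := by omega
    rw [hj]
    exact_mod_cast this
  have hε' : 0 < 1 / ε := by positivity
  have hεε : ε * (1 / ε) = 1 := by field_simp
  by_cases hbig : 1 / ε ≤ k - 2
  · have ha := CC_ge A P hP
    have hb := EE_ge' A P hP
    rw [← hk, ← hj] at ha
    rw [← hj] at hb
    have h1 : 1 * (j - 1) ≤ ε * CC A := by
      calc 1 * (j - 1) = ε * (1 / ε * (j - 1)) := by rw [← mul_assoc, hεε]
        _ ≤ ε * ((k - 2) * (j - 1)) :=
          mul_le_mul_of_nonneg_left (mul_le_mul_of_nonneg_right hbig (by linarith)) hε.le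
        _ ≤ ε * CC A := mul_le_mul_of_nonneg_left ha hε.le
    linarith
  · rw [not_le] at hbig
    have hc := CC_ge' A (mult A P) (by omega) hmax
    rw [← hk] at hc
    have hb := EE_ge A
    have hk0 : 0 < k := by linarith
    have hd0 : (0 : ℝ) ≤ A.card := by positivity
    have h6 : (2 + 1 / ε) * A.card ≤ (A.card : ℝ) * (A.card - 1) / k := by
      rw [le_div_iff₀ hk0]
      have h7 : (2 + 1 / ε) * k ≤ (A.card : ℝ) - 1 := by
        have : (2 + 1 / ε) * k ≤ (2 + 1 / ε) * (2 + 1 / ε) :=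
          mul_le_mul_of_nonneg_left (by linarith) (by linarith)
        linarith
      calc (2 + 1 / ε) * A.card * k = A.card * ((2 + 1 / ε) * k) := by ring
        _ ≤ A.card * (A.card - 1) := mul_le_mul_of_nonneg_left h7 hd0
    have h8 : 1 / ε * A.card ≤ CC A := by linarith
    have h9 : ε * (1 / ε * A.card) ≤ ε * CC A := mul_le_mul_of_nonneg_left h8 hε.le
    rw [← mul_assoc, hεε, one_mul] at h9
    linarith

lemma f0_le_f1 (A : Finset (PP F)) : f0 A ≤ f1 A := by
  have := two_f0_le A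
  omega

lemma f1_le (A : Finset (PP F)) : f1 A ≤ A.card * A.card := by
  have h := sum_mult A
  have h2 : f1 A ≤ ∑ p ∈ verts A, mult A p * (mult A p - 1) := by
    unfold f1
    refine Finset.sum_le_sum fun p hp => ?_
    have h3 := mem_verts.mp hp
    calc mult A p = mult A p * 1 := (mul_one _).symm
      _ ≤ mult A p * (mult A p - 1) := Nat.mul_le_mul_left _ (by omega)
  rw [h] at h2
  exact h2.trans (Nat.mul_le_mul_left _ (Nat.sub_le _ _))

variable (F) in
lemma finite_small (D : ℕ) :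
    {s : ℝ | ∃ A : Finset (PP F), nondeg A ∧ A.card < D ∧ s = slope A}.Finite := by
  have hfin : ((Finset.range D ×ˢ (Finset.range (D * D + 1) ×ˢ Finset.range (D * D + 1))).image
    (fun x : ℕ × ℕ × ℕ => ((9 : ℝ) - 5 * x.1 + 3 * x.2.1 - 4 * x.2.2)
      / (3 - 2 * x.1 + x.2.1 - x.2.2)) : Set ℝ).Finite := Finset.finite_toSet _
  refine hfin.subset ?_
  rintro s ⟨A, -, hAD, rfl⟩
  have h1 := f0_le_f1 A
  have h2 := f1_le A
  have h3 : A.card * A.card ≤ D * D := Nat.mul_le_mul hAD.le hAD.le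
  rw [Finset.mem_coe, Finset.mem_image]
  refine ⟨(A.card, f1 A, f0 A), ?_, rfl⟩
  simp only [Finset.mem_product, Finset.mem_range]
  omega

lemma acc_big {r : ℝ} (hr : r ∈ derivedSet (slopes F)) (D : ℕ) (η : ℝ) (hη : 0 < η) :
    ∃ A : Finset (PP F), nondeg A ∧ D ≤ A.card ∧ |slope A - r| < η := by
  rw [mem_derivedSet, accPt_iff_nhds] at hr
  have hcl : IsClosed ({s : ℝ | ∃ A : Finset (PP F), nondeg A ∧ A.card < D ∧ s = slope A} \ {r}) :=
    ((finite_small F D).subset Set.sdiff_subset).isClosed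
  have hn : ({s : ℝ | ∃ A : Finset (PP F), nondeg A ∧ A.card < D ∧ s = slope A} \ {r})ᶜ
      ∈ 𝓝 r := hcl.isOpen_compl.mem_nhds (by simp)
  obtain ⟨s, ⟨⟨hs1, hs2⟩, hs3⟩, hs4⟩ := hr _ (Filter.inter_mem (Metric.ball_mem_nhds r hη) hn)
  obtain ⟨A, hA, rfl⟩ := hs3
  refine ⟨A, hA, ?_, ?_⟩
  · by_contra hlt
    exact hs2 ⟨⟨A, hA, not_le.mp hlt, rfl⟩, hs4⟩
  · rw [Metric.mem_ball, Real.dist_eq] at hs1
    exact hs1

lemma two_le_of_mem {r : ℝ} (hr : r ∈ derivedSet (slopes F)) : 2 ≤ r := by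
  by_contra hlt
  rw [not_le] at hlt
  obtain ⟨D, hD⟩ := EE_ge_neg (F := F) ((2 - r) / 2) (by linarith)
  obtain ⟨A, hA, hAD, hs⟩ := acc_big hr D ((2 - r) / 2) (by linarith)
  have h1 := hD A hA hAD
  have hC := CC_pos A hA
  rw [slope_eq_two_add A hA, abs_lt] at hs
  have h2 : -((2 - r) / 2) ≤ EE A / CC A := by
    rw [le_div_iff₀ hC]
    linarith
  linarith [hs.2]

lemma le_three_of_mem {r : ℝ} (hr : r ∈ derivedSet (slopes F)) : r ≤ 3 := by
  by_contra hlt
  rw [not_le] at hlt
  set η : ℝ := (r - 3) / 2 with hη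
  have hη0 : 0 < η := by linarith
  obtain ⟨D, hD⟩ := big_of_EE (F := F) 1 (2 / η) one_pos (by positivity)
  obtain ⟨A, hA, hAD, hs⟩ := acc_big hr D η hη0
  have hC := CC_pos A hA
  rw [slope_eq_two_add A hA, abs_lt] at hs
  have h1 : 1 + η ≤ EE A / CC A := by linarith [hs.1]
  rw [le_div_iff₀ hC] at h1
  have h2 := hD A hA hAD (by nlinarith)
  have h3 : EE A ≤ CC A + A.card := by
    have : (0 : ℝ) ≤ f0 A := by positivity
    unfold EE CC
    linarith
  have h4 : η * (2 / η * A.card) ≤ η * CC A := mul_le_mul_of_nonneg_left h2 hη0.le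
  have h5 : η * (2 / η * A.card) = 2 * A.card := by field_simp
  have h6 : (3 : ℝ) ≤ A.card := by exact_mod_cast hA.1
  rw [h5] at h4
  nlinarith

/-- if there are arrangements with arbitrarily many lines of slope at least `c > 2`,
then `[2, c]` consists of accumulation points -/
lemma Icc_subset_of_frequently [Infinite F] (c : ℝ) (hc : 2 < c)
    (h : ∀ N : ℕ, ∃ A : Finset (PP F), nondeg A ∧ N ≤ A.card ∧ c ≤ slope A) :
    Set.Icc 2 c ⊆ derivedSet (slopes F) := by
  refine Icc_subset_derivedSet c (fun K => ?_) hc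
  obtain ⟨D, hD⟩ := big_of_EE (F := F) (c - 2) (max K 0) (by linarith) (le_max_right _ _)
  obtain ⟨M, hM⟩ := exists_nat_ge K
  obtain ⟨A, hA, hAD, hs⟩ := h (max D M)
  have hM' : (M : ℝ) ≤ A.card := by exact_mod_cast (le_max_right D M).trans hAD
  refine ⟨A, hA, hM.trans hM', ?_, hs⟩
  have hC := CC_pos A hA
  have h1 : (c - 2) * CC A ≤ EE A := by
    rw [slope_eq_two_add A hA] at hs
    have : c - 2 ≤ EE A / CC A := by linarith
    rwa [le_div_iff₀ hC] at this
  have h2 := hD A hA ((le_max_left D M).trans hAD) h1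
  have h3 : K * A.card ≤ max K 0 * A.card :=
    mul_le_mul_of_nonneg_right (le_max_left _ _) (by positivity)
  exact h3.trans h2

lemma Icc_subset_of_mem [Infinite F] {r : ℝ} (hr : r ∈ derivedSet (slopes F)) :
    Set.Icc 2 r ⊆ derivedSet (slopes F) := by
  rintro x ⟨hx2, hxr⟩
  rcases hxr.eq_or_lt with rfl | hlt
  · exact hr
  set c := (x + r) / 2 with hc
  have h := Icc_subset_of_frequently (F := F) c (by linarith) (fun N => ?_)
  · exact h ⟨hx2, by linarith⟩
  · obtain ⟨A, hA, hAD, hs⟩ := acc_big hr N (r - c) (by linarith)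
    rw [abs_lt] at hs
    exact ⟨A, hA, hAD, by linarith [hs.1]⟩

lemma exists_simple [Infinite F] (n : ℕ) :
    ∃ A : Finset (PP F), A.card = n ∧ ∀ p, mult A p ≤ 2 := by
  induction n with
  | zero => exact ⟨∅, rfl, fun p => by simp [mult]⟩
  | succ n ih =>
    obtain ⟨A, hA, hm⟩ := ih
    obtain ⟨L, hL, hg⟩ := exists_generic A
    refine ⟨insert L A, by rw [Finset.card_insert_of_notMem hL, hA], fun p => ?_⟩
    rw [mult_insert hL]
    have h1 := hm p
    split_ifs with h
    · by_cases hp : 2 ≤ mult A p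
      · exact absurd h (hg p (mem_verts.mpr hp))
      · omega
    · omega

lemma slope_simple (A : Finset (PP F)) (hm : ∀ p, mult A p ≤ 2) (n : ℕ) (hn : A.card = n + 4) :
    nondeg A ∧ slope A = 2 - 2 / (n + 2 : ℝ) := by
  have hnd : nondeg A := ⟨by omega, fun p => by have := hm p; omega⟩
  refine ⟨hnd, ?_⟩
  have h1 : f1 A = A.card * (A.card - 1) := by
    rw [← sum_mult]
    unfold f1
    refine Finset.sum_congr rfl fun p hp => ?_
    have h2 := mem_verts.mp hp
    have h3 := hm p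
    have : mult A p = 2 := by omega
    rw [this]
  have h2 : 2 * f0 A = f1 A := by
    unfold f0 f1
    rw [mul_comm, ← smul_eq_mul, ← Finset.sum_const]
    refine Finset.sum_congr rfl fun p hp => ?_
    have h2 := mem_verts.mp hp
    have h3 := hm p
    omega
  have h3 : (f1 A : ℝ) = (n + 4) * (n + 3) := by
    rw [h1, hn]
    push_cast
    ring_nf
  have h4 : (2 : ℝ) * f0 A = (n + 4) * (n + 3) := by
    rw [← h3]
    exact_mod_cast h2
  have h5 : (f0 A : ℝ) = (n + 4) * (n + 3) / 2 := by linarith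
  have h6 : (A.card : ℝ) = n + 4 := by rw [hn]; push_cast; ring
  unfold slope
  rw [h3, h5, h6]
  have h7 : (0 : ℝ) < n + 2 := by positivity
  have h8 : (3 : ℝ) - 2 * (n + 4) + (n + 4) * (n + 3) - (n + 4) * (n + 3) / 2
      = (n + 2) * (n + 1) / 2 := by ring
  rw [h8]
  have h9 : (0 : ℝ) < n + 1 := by positivity
  field_simp
  ring

variable (F) in
lemma two_mem [Infinite F] : (2 : ℝ) ∈ derivedSet (slopes F) := by
  rw [mem_derivedSet, accPt_iff_nhds]
  intro U hU
  obtain ⟨ε, hε, hεU⟩ := Metric.mem_nhds_iff.mp hU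
  obtain ⟨n, hn⟩ := exists_nat_gt (2 / ε)
  obtain ⟨A, hA, hm⟩ := exists_simple (F := F) (n + 4)
  obtain ⟨hnd, hs⟩ := slope_simple A hm n hA
  have hn2 : (0 : ℝ) < n + 2 := by positivity
  have h1 : 0 < 2 / (n + 2 : ℝ) := by positivity
  have h2 : 2 / (n + 2 : ℝ) < ε := by
    rw [div_lt_iff₀ hn2]
    rw [div_lt_iff₀ hε] at hn
    nlinarith
  refine ⟨slope A, ⟨hεU ?_, A, hnd, rfl⟩, ?_⟩
  · rw [Metric.mem_ball, Real.dist_eq, hs, abs_lt]
    constructor <;> linarith
  · rw [hs]
    linarith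

variable (F) in
/-- The accumulation points of the Chern slopes over an infinite field form a closed interval
`[2, s]`, where `s` is the upper limit of the slopes as the number of lines grows. -/
theorem interval [Infinite F] :
    ∃ s : ℝ, 2 ≤ s ∧ s ≤ 3 ∧ derivedSet (slopes F) = Set.Icc 2 s ∧
      ∀ c : ℝ, c ≤ s ↔ ∀ ε : ℝ, 0 < ε → ∀ N : ℕ, ∃ A : Finset (PP F),
        nondeg A ∧ N ≤ A.card ∧ c - ε ≤ slope A := by
  have hcl : IsClosed (derivedSet (slopes F)) := isClosed_derivedSet (slopes F)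
  have hbdd : BddAbove (derivedSet (slopes F)) := ⟨3, fun r hr => le_three_of_mem hr⟩
  have hne : (derivedSet (slopes F)).Nonempty := ⟨2, two_mem F⟩
  set s := sSup (derivedSet (slopes F)) with hs
  have hsm : s ∈ derivedSet (slopes F) := hcl.csSup_mem hne hbdd
  have heq : derivedSet (slopes F) = Set.Icc 2 s := by
    refine Set.Subset.antisymm (fun r hr => ⟨two_le_of_mem hr, le_csSup hbdd hr⟩) ?_
    exact Icc_subset_of_mem hsm
  refine ⟨s, two_le_of_mem hsm, le_three_of_mem hsm, heq, fun c => ⟨?_, ?_⟩⟩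
  · intro hc ε hε N
    obtain ⟨A, hA, hAD, h⟩ := acc_big hsm N ε hε
    rw [abs_lt] at h
    exact ⟨A, hA, hAD, by linarith [h.1]⟩
  · intro h
    by_contra hlt
    rw [not_le] at hlt
    have h2 := two_le_of_mem hsm
    set c' := (c + s) / 2 with hc'
    have h3 := Icc_subset_of_frequently (F := F) c' (by linarith) (fun N => ?_)
    · have h4 : c' ∈ derivedSet (slopes F) := h3 ⟨by linarith, le_refl _⟩
      have h5 := le_csSup hbdd h4
      linarith
    · obtain ⟨A, hA, hAD, h4⟩ := h (c - c') (by linarith) N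
      exact ⟨A, hA, hAD, by linarith⟩

end Pool.Agent.Work.MP_b25393_ag.Str
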