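import Mathlib

/-! Line arrangements over an arbitrary infinite field: combinatorics of vertices, adding
general lines, and the density criterion (the rational case is in Bd/B01). -/

set_option autoImplicit false

open scoped LinearAlgebra.Projectivization

namespace Pool.Agent.Work.MP_b25393_ag.Str

open Projectivization Matrix Filter Topology
open scoped Classical

variable {F : Type*} [Field F]

/-- points and lines of the rational projective plane -/
abbrev PP (F : Type*) [Field F] := ℙ F (Fin 3 → F)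

/-- incidence -/
abbrev inc (p L : PP F) : Prop := ∑ i, p.rep i * L.rep i = 0

lemma inc_comm (p L : PP F) : inc p L ↔ inc L p := by
  unfold inc
  simp only [mul_comm]

lemma inc_mk_mk {v w : Fin 3 → F} (hv : v ≠ 0) (hw : w ≠ 0) :
    inc (mk F v hv) (mk F w hw) ↔ ∑ i, v i * w i = 0 := by
  obtain ⟨a, ha⟩ := exists_smul_eq_mk_rep F v hv
  obtain ⟨b, hb⟩ := exists_smul_eq_mk_rep F w hw
  unfold inc
  rw [← ha, ← hb]
  have : ∑ i, (a • v) i * (b • w) i = ((a : F) * (b : F)) * ∑ i, v i * w i := by
    rw [Finset.mul_sum]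
    refine Finset.sum_congr rfl fun i _ => ?_
    simp only [Pi.smul_apply, Units.smul_def, smul_eq_mul]
    ring
  rw [this, mul_eq_zero]
  constructor
  · rintro (h | h)
    · exact absurd h (mul_ne_zero a.ne_zero b.ne_zero)
    · exact h
  · intro h
    exact Or.inr h

lemma cross_ne_zero_iff (p q : PP F) : p.rep ⨯₃ q.rep ≠ 0 ↔ p ≠ q := by
  rw [crossProduct_ne_zero_iff_linearIndependent]
  have h := independent_pair_iff_ne (K := F) p q
  rw [independent_iff] at h
  rw [← h]
  have : Projectivization.rep ∘ ![p, q] = ![p.rep, q.rep] := by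
    ext i j
    fin_cases i <;> rfl
  rw [this]

lemma eq_of_cross_eq_zero {v w : Fin 3 → F} (hv : v ≠ 0) (hw : w ≠ 0) (h : v ⨯₃ w = 0) :
    mk F v hv = mk F w hw := by
  by_contra hne
  rw [← Ne, ← cross_ne_zero_iff] at hne
  obtain ⟨a, ha⟩ := exists_smul_eq_mk_rep F v hv
  obtain ⟨b, hb⟩ := exists_smul_eq_mk_rep F w hw
  apply hne
  rw [← ha, ← hb, Units.smul_def, Units.smul_def, map_smul, map_smul, LinearMap.smul_apply, h,
    smul_zero, smul_zero]

lemma cross_eq_zero_of_eq {v w : Fin 3 → F} (hv : v ≠ 0) (hw : w ≠ 0)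
    (h : mk F v hv = mk F w hw) : v ⨯₃ w = 0 := by
  by_contra hne
  rw [mk_eq_mk_iff'] at h
  obtain ⟨a, ha⟩ := h
  apply hne
  rw [← ha, map_smul, LinearMap.smul_apply, _root_.cross_self, smul_zero]

/-- the common point of two lines -/
noncomputable def meet (L L' : PP F) : PP F :=
  if h : L.rep ⨯₃ L'.rep ≠ 0 then mk F _ h else L

lemma meet_inc_left {L L' : PP F} (h : L ≠ L') : inc (meet L L') L := by
  have hc := (cross_ne_zero_iff L L').mpr h
  unfold meet
  rw [dif_pos hc]
  conv => rhs; rw [← L.mk_rep]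
  rw [inc_mk_mk hc L.rep_nonzero]
  have := dot_self_cross L.rep L'.rep
  rw [dotProduct_comm] at this
  exact this

lemma meet_inc_right {L L' : PP F} (h : L ≠ L') : inc (meet L L') L' := by
  have hc := (cross_ne_zero_iff L L').mpr h
  unfold meet
  rw [dif_pos hc]
  conv => rhs; rw [← L'.mk_rep]
  rw [inc_mk_mk hc L'.rep_nonzero]
  have := dot_cross_self L.rep L'.rep
  rw [dotProduct_comm] at this
  exact this

lemma point_unique {L L' p q : PP F} (h : L ≠ L') (h1 : inc p L) (h2 : inc p L') (h3 : inc q L)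
    (h4 : inc q L') : p = q := by
  by_contra hne
  have hc := (cross_ne_zero_iff p q).mpr hne
  have key : ∀ M : PP F, inc p M → inc q M → M = mk F _ hc := by
    intro M hp hq
    conv => lhs; rw [← M.mk_rep]
    apply eq_of_cross_eq_zero
    rw [cross_cross_eq_smul_sub_smul']
    have e1 : M.rep ⬝ᵥ q.rep = 0 := by rw [dotProduct_comm]; exact hq
    have e2 : M.rep ⬝ᵥ p.rep = 0 := by rw [dotProduct_comm]; exact hp
    have e3 : p.rep ⬝ᵥ M.rep = 0 := hp
    have e4 : q.rep ⬝ᵥ M.rep = 0 := hq
    simp [e1, e3]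
  exact h ((key L h1 h3).trans (key L' h2 h4).symm)

lemma meet_eq {L L' p : PP F} (h : L ≠ L') (h1 : inc p L) (h2 : inc p L') : meet L L' = p :=
  point_unique h (meet_inc_left h) (meet_inc_right h) h1 h2

/-- number of lines of `A` through `p` -/
noncomputable def mult (A : Finset (PP F)) (p : PP F) : ℕ := (A.filter (fun L => inc p L)).card

/-- the points lying on at least two lines of `A` -/
noncomputable def verts (A : Finset (PP F)) : Finset (PP F) := by
  exact A.offDiag.image (fun LL => meet LL.1 LL.2)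

lemma mem_verts {A : Finset (PP F)} {p : PP F} : p ∈ verts A ↔ 2 ≤ mult A p := by
  unfold verts mult
  rw [Finset.mem_image]
  constructor
  · rintro ⟨⟨L, L'⟩, hL, rfl⟩
    rw [Finset.mem_offDiag] at hL
    obtain ⟨h1, h2, h3⟩ := hL
    have h3' : L ≠ L' := h3
    have : 1 < (A.filter (fun M => inc (meet L L') M)).card := by
      rw [Finset.one_lt_card]
      exact ⟨L, Finset.mem_filter.mpr ⟨h1, meet_inc_left h3'⟩, L',
        Finset.mem_filter.mpr ⟨h2, meet_inc_right h3'⟩, h3'⟩
    exact this
  · intro h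
    obtain ⟨L, hL, L', hL', hne⟩ := Finset.one_lt_card.mp (show 1 < _ from h)
    rw [Finset.mem_filter] at hL hL'
    exact ⟨(L, L'), Finset.mem_offDiag.mpr ⟨hL.1, hL'.1, hne⟩, meet_eq hne hL.2 hL'.2⟩

lemma sum_mult (A : Finset (PP F)) :
    ∑ p ∈ verts A, mult A p * (mult A p - 1) = A.card * (A.card - 1) := by
  have h1 : A.offDiag.card = A.card * (A.card - 1) := by
    rw [Finset.offDiag_card, Nat.mul_sub, mul_one]
  rw [← h1]
  rw [Finset.card_eq_sum_card_fiberwise (f := fun LL : PP F × PP F => meet LL.1 LL.2) (t := verts A)]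
  · refine Finset.sum_congr rfl fun p hp => ?_
    have : (A.offDiag.filter fun LL => meet LL.1 LL.2 = p)
        = (A.filter (fun L => inc p L)).offDiag := by
      ext ⟨L, L'⟩
      simp only [Finset.mem_filter, Finset.mem_offDiag]
      constructor
      · rintro ⟨⟨h1, h2, h3⟩, rfl⟩
        exact ⟨⟨h1, meet_inc_left h3⟩, ⟨h2, meet_inc_right h3⟩, h3⟩
      · rintro ⟨⟨h1, h2⟩, ⟨h3, h4⟩, h5⟩
        exact ⟨⟨h1, h3, h5⟩, meet_eq h5 h2 h4⟩
    rw [this, Finset.offDiag_card, Nat.mul_sub, mul_one]
    rfl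
  · intro LL hLL
    unfold verts
    exact Finset.mem_coe.mpr (Finset.mem_image_of_mem _ hLL)

lemma mult_le_card (A : Finset (PP F)) (p : PP F) : mult A p ≤ A.card := Finset.card_filter_le _ _

/-- rewriting the sums over `k` of `g k * t_k` as sums over vertices -/
lemma sum_t (A : Finset (PP F)) (g : ℕ → ℝ) :
    ∑ k ∈ Finset.Icc 2 A.card, g k * (({p : PP F | mult A p = k}.ncard : ℕ) : ℝ)
      = ∑ p ∈ verts A, g (mult A p) := by
  have h : ∀ k ∈ Finset.Icc 2 A.card, (({p : PP F | mult A p = k}.ncard : ℕ) : ℝ)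
        = (((verts A).filter (fun p => mult A p = k)).card : ℝ) := by
    intro k hk
    rw [Finset.mem_Icc] at hk
    have : {p : PP F | mult A p = k}
        = ((verts A).filter (fun p => mult A p = k) : Set (PP F)) := by
      ext p
      simp only [Set.mem_ofPred_eq, Finset.coe_filter, mem_verts]
      constructor
      · intro h
        exact ⟨by omega, h⟩
      · rintro ⟨_, h⟩
        exact h
    rw [this, Set.ncard_coe_finset]
  rw [Finset.sum_congr rfl (fun k hk => by rw [h k hk])]
  have h2 : ∀ p ∈ verts A, mult A p ∈ Finset.Icc 2 A.card := by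
    intro p hp
    rw [Finset.mem_Icc]
    exact ⟨mem_verts.mp hp, mult_le_card A p⟩
  rw [← Finset.sum_fiberwise_of_maps_to h2 (fun p => g (mult A p))]
  refine Finset.sum_congr rfl fun k _ => ?_
  rw [Finset.sum_congr rfl (g := fun _ => g k)]
  · rw [Finset.sum_const, nsmul_eq_mul, mul_comm]
  · intro p hp
    rw [(Finset.mem_filter.mp hp).2]

/-- the vector `(1, x, x^2)` -/
def vn (x : F) : Fin 3 → F := ![1, x, x ^ 2]

lemma vn_ne (x : F) : vn x ≠ 0 := by
  intro h
  have := congrFun h 0
  simp [vn] at this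

/-- a family of lines in general position -/
noncomputable def gn (x : F) : PP F := mk F (vn x) (vn_ne x)

lemma gn_injective : Function.Injective (gn (F := F)) := by
  intro m n h
  have h1 := cross_eq_zero_of_eq (vn_ne m) (vn_ne n) h
  rw [cross_apply] at h1
  have h2 := congrFun h1 2
  simp [vn] at h2
  have h3 : n - m = 0 := h2
  exact (sub_eq_zero.mp h3).symm

lemma finite_inc_gn (p : PP F) : {x : F | inc p (gn x)}.Finite := by
  set a := p.rep with ha
  have hane : a ≠ 0 := p.rep_nonzero
  let P : Polynomial F := Polynomial.C (a 0) + Polynomial.C (a 1) * Polynomial.X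
    + Polynomial.C (a 2) * Polynomial.X ^ 2
  have hP : P ≠ 0 := by
    intro h0
    apply hane
    ext i
    have hc := fun k => congrArg (fun Q => Polynomial.coeff Q k) h0
    fin_cases i
    · have := hc 0
      simpa [P] using this
    · have := hc 1
      simpa [P, Polynomial.coeff_X, Polynomial.coeff_C] using this
    · have := hc 2
      simpa [P, Polynomial.coeff_X, Polynomial.coeff_C] using this
  have hsub : {x : F | inc p (gn x)} ⊆ (P.roots.toFinset : Set F) := by
    intro n hn
    have h1 : inc (mk F a hane) (mk F (vn n) (vn_ne n)) := by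
      have : mk F a hane = p := p.mk_rep
      rw [this]
      exact hn
    rw [inc_mk_mk] at h1
    simp only [Finset.mem_coe, Multiset.mem_toFinset]
    rw [Polynomial.mem_roots hP, Polynomial.IsRoot]
    simp [P]
    simpa [Fin.sum_univ_three, vn] using h1
  exact Set.Finite.subset (Finset.finite_toSet _) hsub

lemma exists_generic [Infinite F] (A : Finset (PP F)) :
    ∃ L : PP F, L ∉ A ∧ ∀ p ∈ verts A, ¬ inc p L := by
  have h1 : {x : F | gn x ∈ A}.Finite := by
    have : {x : F | gn x ∈ A} = gn ⁻¹' (A : Set (PP F)) := rfl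
    rw [this]
    exact Set.Finite.preimage gn_injective.injOn (Finset.finite_toSet _)
  have h2 : (⋃ p ∈ verts A, {x : F | inc p (gn x)}).Finite :=
    Set.Finite.biUnion (Finset.finite_toSet _) (fun p _ => finite_inc_gn p)
  obtain ⟨n, hn⟩ := (h1.union h2).exists_notMem
  simp only [Set.mem_union, not_or, Set.mem_iUnion, not_exists] at hn
  exact ⟨gn n, hn.1, fun p hp h => hn.2 p hp h⟩

lemma mult_insert {A : Finset (PP F)} {L : PP F} (hL : L ∉ A) (p : PP F) :
    mult (insert L A) p = mult A p + if inc p L then 1 else 0 := by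
  unfold mult
  rw [Finset.filter_insert]
  split_ifs with h
  · rw [Finset.card_insert_of_notMem]
    intro h'
    exact hL (Finset.mem_filter.mp h').1
  · simp

lemma verts_insert {A : Finset (PP F)} {L : PP F} (hL : L ∉ A)
    (hg : ∀ p ∈ verts A, ¬ inc p L) :
    verts (insert L A) = verts A ∪ A.image (meet L) := by
  ext p
  rw [Finset.mem_union, mem_verts, mem_verts, mult_insert hL, Finset.mem_image]
  constructor
  · intro h
    by_cases hp : 2 ≤ mult A p
    · exact Or.inl hp
    · right
      split_ifs at h with hi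
      · have h1 : 1 ≤ mult A p := by omega
        obtain ⟨M, hM⟩ := Finset.card_pos.mp (show 0 < (A.filter (fun L => inc p L)).card from h1)
        rw [Finset.mem_filter] at hM
        have hne : L ≠ M := by
          rintro rfl
          exact hL hM.1
        exact ⟨M, hM.1, meet_eq hne hi hM.2⟩
      · omega
  · rintro (h | ⟨M, hM, rfl⟩)
    · omega
    · have hne : L ≠ M := by
        rintro rfl
        exact hL hM
      rw [if_pos (meet_inc_left hne)]
      have : 0 < (A.filter (fun K => inc (meet L M) K)).card :=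
        Finset.card_pos.mpr ⟨M, Finset.mem_filter.mpr ⟨hM, meet_inc_right hne⟩⟩
      have : 0 < mult A (meet L M) := this
      omega

lemma verts_insert_disj {A : Finset (PP F)} {L : PP F} (hL : L ∉ A)
    (hg : ∀ p ∈ verts A, ¬ inc p L) : Disjoint (verts A) (A.image (meet L)) := by
  rw [Finset.disjoint_left]
  intro p hp hp'
  obtain ⟨M, hM, rfl⟩ := Finset.mem_image.mp hp'
  have hne : L ≠ M := by
    rintro rfl
    exact hL hM
  exact hg _ hp (meet_inc_left hne)

lemma meet_injOn {A : Finset (PP F)} {L : PP F} (hL : L ∉ A)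
    (hg : ∀ p ∈ verts A, ¬ inc p L) : Set.InjOn (meet L) (A : Set (PP F)) := by
  intro M hM M' hM' h
  by_contra hne
  have h1 : L ≠ M := by
    rintro rfl
    exact hL hM
  have h2 : L ≠ M' := by
    rintro rfl
    exact hL hM'
  have h3 : meet L M ∈ verts A := by
    rw [mem_verts]
    have : 1 < (A.filter (fun K => inc (meet L M) K)).card := by
      rw [Finset.one_lt_card]
      refine ⟨M, Finset.mem_filter.mpr ⟨hM, meet_inc_right h1⟩, M',
        Finset.mem_filter.mpr ⟨hM', ?_⟩, hne⟩
      rw [h]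
      exact meet_inc_right h2
    exact this
  exact hg _ h3 (meet_inc_left h1)

lemma mult_meet_insert {A : Finset (PP F)} {L M : PP F} (hL : L ∉ A)
    (hg : ∀ p ∈ verts A, ¬ inc p L) (hM : M ∈ A) : mult (insert L A) (meet L M) = 2 := by
  have hne : L ≠ M := by
    rintro rfl
    exact hL hM
  rw [mult_insert hL, if_pos (meet_inc_left hne)]
  have h1 : 0 < mult A (meet L M) :=
    Finset.card_pos.mpr ⟨M, Finset.mem_filter.mpr ⟨hM, meet_inc_right hne⟩⟩
  have h2 : ¬ 2 ≤ mult A (meet L M) := by
    intro h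
    exact hg _ (mem_verts.mpr h) (meet_inc_left hne)
  omega

/-- number of vertices -/
noncomputable def f0 (A : Finset (PP F)) : ℕ := (verts A).card

/-- number of incidences of vertices and lines -/
noncomputable def f1 (A : Finset (PP F)) : ℕ := ∑ p ∈ verts A, mult A p

/-- nondegeneracy: no point lies on more than `d - 2` lines -/
def nondeg (A : Finset (PP F)) : Prop := 3 ≤ A.card ∧ ∀ p, mult A p + 2 ≤ A.card

lemma generic_step [Infinite F] (A : Finset (PP F)) (hA : nondeg A) :
    ∃ B : Finset (PP F), nondeg B ∧ B.card = A.card + 1 ∧ f0 B = f0 A + A.card ∧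
      f1 B = f1 A + 2 * A.card := by
  obtain ⟨L, hL, hg⟩ := exists_generic A
  refine ⟨insert L A, ⟨?_, ?_⟩, Finset.card_insert_of_notMem hL, ?_, ?_⟩
  · rw [Finset.card_insert_of_notMem hL]
    exact hA.1.trans (Nat.le_succ _)
  · intro p
    rw [Finset.card_insert_of_notMem hL, mult_insert hL]
    have h1 := hA.2 p
    split_ifs with h
    · by_cases hp : 2 ≤ mult A p
      · exact absurd h (hg p (mem_verts.mpr hp))
      · have := hA.1
        omega
    · omega
  · unfold f0
    rw [verts_insert hL hg, Finset.card_union_of_disjoint (verts_insert_disj hL hg),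
      Finset.card_image_of_injOn (meet_injOn hL hg)]
  · unfold f1
    rw [verts_insert hL hg, Finset.sum_union (verts_insert_disj hL hg)]
    congr 1
    · refine Finset.sum_congr rfl fun p hp => ?_
      rw [mult_insert hL, if_neg (hg p hp), add_zero]
    · rw [Finset.sum_image (fun x hx y hy => meet_injOn hL hg hx hy),
        Finset.sum_congr rfl (fun M hM => mult_meet_insert hL hg hM)]
      simp [mul_comm]

lemma generic_steps [Infinite F] (A : Finset (PP F)) (hA : nondeg A) (k : ℕ) :
    ∃ B : Finset (PP F), nondeg B ∧ B.card = A.card + k ∧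
      2 * f0 B = 2 * f0 A + 2 * k * A.card + k * (k - 1) ∧
      f1 B = f1 A + 2 * k * A.card + k * (k - 1) := by
  induction k with
  | zero => exact ⟨A, hA, by simp, by simp, by simp⟩
  | succ k ih =>
    obtain ⟨B, hB, h1, h2, h3⟩ := ih
    obtain ⟨C, hC, h4, h5, h6⟩ := generic_step B hB
    refine ⟨C, hC, by omega, ?_, ?_⟩
    · rw [h5, mul_add, h2, h1]
      rcases k with _ | k
      · simp
      · simp only [Nat.add_sub_cancel]
        ring
    · rw [h6, h3, h1]
      rcases k with _ | k
      · simp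
      · simp only [Nat.add_sub_cancel]
        ring

/-- the slope of `A` in terms of the numbers of lines, vertices and incidences -/
noncomputable def slope (A : Finset (PP F)) : ℝ :=
  ((9 : ℝ) - 5 * A.card + 3 * f1 A - 4 * f0 A) / (3 - 2 * A.card + f1 A - f0 A)

variable (F) in
/-- the set of Chern slopes of line arrangements over `F` -/
def slopes : Set ℝ := {s : ℝ | ∃ A : Finset (PP F), nondeg A ∧ s = slope A}

lemma slope_mem (A : Finset (PP F)) (hA : nondeg A) :
    ((9 : ℝ) - 5 * A.card + 3 * f1 A - 4 * f0 A) / (3 - 2 * A.card + f1 A - f0 A) ∈ slopes F :=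
  ⟨A, hA, rfl⟩

lemma slope_eq (A : Finset (PP F)) :
    ((9 : ℝ) - 5 * (A.card : ℝ)
            + ∑ k ∈ Finset.Icc 2 A.card, (3 * (k : ℝ) - 4) *
                (({p : PP F | mult A p = k}.ncard : ℕ) : ℝ))
          / ((3 : ℝ) - 2 * (A.card : ℝ)
            + ∑ k ∈ Finset.Icc 2 A.card, ((k : ℝ) - 1) *
                (({p : PP F | mult A p = k}.ncard : ℕ) : ℝ)) = slope A := by
  have e1 := sum_t A (fun k => 3 * (k : ℝ) - 4)
  have e2 := sum_t A (fun k => (k : ℝ) - 1)
  rw [e1, e2]
  have e3 : ∑ p ∈ verts A, (3 * (mult A p : ℝ) - 4) = 3 * f1 A - 4 * f0 A := by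
    rw [Finset.sum_sub_distrib, ← Finset.mul_sum, Finset.sum_const, nsmul_eq_mul]
    unfold f0 f1
    push_cast
    ring
  have e4 : ∑ p ∈ verts A, ((mult A p : ℝ) - 1) = f1 A - f0 A := by
    rw [Finset.sum_sub_distrib, Finset.sum_const, nsmul_eq_mul]
    unfold f0 f1
    push_cast
    ring
  rw [e3, e4]
  unfold slope
  congr 1 <;> ring

lemma two_f0_le (A : Finset (PP F)) : 2 * f0 A ≤ f1 A := by
  unfold f0 f1
  rw [mul_comm, ← smul_eq_mul, ← Finset.sum_const]
  exact Finset.sum_le_sum (fun p hp => mem_verts.mp hp)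

lemma step_bound (d C K η m D1 : ℝ) (hd3 : 3 ≤ d) (hKd : K * d ≤ C) (hK : 1 ≤ K)
    (hη : 0 < η) (h1 : 10 / K ≤ η) (h2 : 20 / d ≤ η) (hm : 0 ≤ m)
    (hD1 : D1 = C + (m + 1) * (2 * d + (m + 1) - 5) / 2) (hD1p : 0 < D1) :
    (2 * (d + m) + 1) / D1 ≤ η := by
  have hKpos : 0 < K := by linarith
  have hdpos : 0 < d := by linarith
  rw [div_le_iff₀ hD1p]
  have hexp : (m + 1) * (2 * d + (m + 1) - 5) / 2 = (m * m) / 2 + m * (d - 3 / 2) + (d - 2) := by
    ring
  have hmd' : 0 ≤ m * (d - 3 / 2) := mul_nonneg hm (by linarith)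
  have hmm : 0 ≤ m * m := mul_nonneg hm hm
  have hCpos : 0 < C := by
    have : 0 < K * d := mul_pos hKpos hdpos
    linarith
  by_cases hmd : m ≤ d
  · have h3 : 10 ≤ η * K := by
      rwa [div_le_iff₀ hKpos] at h1
    have h4 : 10 * d ≤ η * K * d := mul_le_mul_of_nonneg_right h3 hdpos.le
    have h5 : η * (K * d) ≤ η * D1 := by
      apply mul_le_mul_of_nonneg_left _ hη.le
      rw [hD1, hexp]
      linarith
    have h6 : η * K * d = η * (K * d) := by ring
    linarith
  · rw [not_le] at hmd
    have h3 : 20 ≤ η * d := by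
      rwa [div_le_iff₀ hdpos] at h2
    have h4 : η * (d * m / 2) ≤ η * D1 := by
      apply mul_le_mul_of_nonneg_left _ hη.le
      rw [hD1, hexp]
      have : d * m ≤ m * m := mul_le_mul_of_nonneg_right hmd.le hm
      linarith
    have h5 : 20 * m ≤ η * d * m := mul_le_mul_of_nonneg_right h3 hm
    have h6 : η * (d * m / 2) = η * d * m / 2 := by ring
    linarith

/-- From one arrangement with slope at least `c`, adding general lines gives slopes in every
interval `(r - η, r)`, provided the arrangement is rich enough. -/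
lemma exists_slope_near [Infinite F] (A : Finset (PP F)) (hA : nondeg A) (c : ℝ) (K : ℝ) (hK : 1 ≤ K)
    (hC : K * A.card ≤ 3 - 2 * A.card + f1 A - f0 A)
    (hs : c ≤ ((9 : ℝ) - 5 * A.card + 3 * f1 A - 4 * f0 A) / (3 - 2 * A.card + f1 A - f0 A))
    (r : ℝ) (hr2 : 2 < r) (hrc : r ≤ c) (η : ℝ) (hη : 0 < η)
    (h1 : 10 / K ≤ η) (h2 : 20 / (A.card : ℝ) ≤ η) :
    ∃ s ∈ slopes F, r - η ≤ s ∧ s < r := by
  set d : ℝ := (A.card : ℝ) with hd
  have hd3 : (3 : ℝ) ≤ d := by rw [hd]; exact_mod_cast hA.1
  set C : ℝ := 3 - 2 * d + f1 A - f0 A with hCdef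
  set X : ℝ := 3 - d + f1 A - 2 * f0 A with hX
  have hKd : K * d ≤ C := hC
  have hKpos : 0 < K := by linarith
  have hCd : d ≤ C := by nlinarith
  have hCpos : 0 < C := by linarith
  have hf : (2 : ℝ) * f0 A ≤ f1 A := by exact_mod_cast two_f0_le A
  have hf0 : (0 : ℝ) ≤ f0 A := by positivity
  have hXC : X ≤ 2 * C := by
    rw [hX]
    have : (3 : ℝ) - d + f1 A - 2 * f0 A ≤ C + d := by rw [hCdef]; linarith
    linarith
  -- the slope after adding k general lines
  let S : ℕ → ℝ := fun k => 2 + (X - k) / (C + k * (2 * d + k - 5) / 2)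
  have hden : ∀ k : ℕ, 0 < C + (k : ℝ) * (2 * d + k - 5) / 2 := by
    intro k
    rcases Nat.eq_zero_or_pos k with rfl | hk
    · simpa using hCpos
    · have hk1 : (1 : ℝ) ≤ k := by exact_mod_cast hk
      have : 0 ≤ (k : ℝ) * (2 * d + k - 5) := by
        apply mul_nonneg (by linarith)
        linarith
      linarith
  have hSmem : ∀ k, S k ∈ slopes F := by
    intro k
    obtain ⟨B, hB, hc, hf0, hf1⟩ := generic_steps A hA k
    have hm := slope_mem B hB
    have hkk : ((k * (k - 1) : ℕ) : ℝ) = (k : ℝ) * (k - 1) := by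
      rcases k with _ | k
      · simp
      · simp
    have e0 : (f0 B : ℝ) = f0 A + k * d + k * (k - 1) / 2 := by
      have : (2 : ℝ) * f0 B = 2 * f0 A + 2 * k * d + (k : ℝ) * (k - 1) := by
        rw [← hkk, hd]
        exact_mod_cast hf0
      linarith
    have e1 : (f1 B : ℝ) = f1 A + 2 * k * d + k * (k - 1) := by
      rw [← hkk, hd]
      exact_mod_cast hf1
    have ec : (B.card : ℝ) = d + k := by rw [hc]; push_cast; rfl
    rw [e0, e1, ec] at hm
    convert hm using 1
    have hne := (hden k).ne'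
    have hden2 : (3 : ℝ) - 2 * (d + k) + (f1 A + 2 * k * d + k * (k - 1))
        - (f0 A + k * d + k * (k - 1) / 2) = C + k * (2 * d + k - 5) / 2 := by
      rw [hCdef]; ring
    rw [hden2]
    simp only [S]
    rw [eq_div_iff hne, add_mul, div_mul_cancel₀ _ hne, hX, hCdef]
    ring
  -- S 0 ≥ c
  have hS0 : r ≤ S 0 := by
    refine hrc.trans (hs.trans (le_of_eq ?_))
    have hne := hCpos.ne'
    simp only [S]
    push_cast
    rw [div_eq_iff hne]
    simp only [sub_zero, zero_mul, zero_div, add_zero]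
    rw [add_mul, div_mul_cancel₀ _ hne, hX, hCdef]
    ring
  -- eventually S k < r
  have hex : ∃ k, S k < r := by
    obtain ⟨k, hk⟩ := exists_nat_gt X
    refine ⟨k, ?_⟩
    have : (X - k) / (C + k * (2 * d + k - 5) / 2) ≤ 0 :=
      div_nonpos_of_nonpos_of_nonneg (by linarith) (hden k).le
    simp only [S]
    linarith
  let k := Nat.find hex
  have hk : S k < r := Nat.find_spec hex
  have hk0 : k ≠ 0 := by
    intro h0
    rw [h0] at hk
    linarith
  obtain ⟨m, hm⟩ : ∃ m, k = m + 1 := ⟨k - 1, by omega⟩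
  have hmr : r ≤ S m := by
    have := Nat.find_min hex (show m < Nat.find hex by change m < k; omega)
    exact not_lt.mp this
  refine ⟨S k, hSmem k, ?_, hk⟩
  -- step estimate
  rw [hm]
  set D0 : ℝ := C + (m : ℝ) * (2 * d + m - 5) / 2 with hD0
  set D1 : ℝ := C + ((m + 1 : ℕ) : ℝ) * (2 * d + ((m + 1 : ℕ) : ℝ) - 5) / 2 with hD1
  have hD0p : 0 < D0 := hden m
  have hD1p : 0 < D1 := hden (m + 1)
  have hmnn : (0 : ℝ) ≤ m := by positivity
  have hdiff : D1 - D0 = d + m - 2 := by
    rw [hD1, hD0]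
    push_cast
    ring
  have hXm : (X - m) / D0 ≤ 2 := by
    rw [div_le_iff₀ hD0p]
    have : D0 ≥ C := by
      rw [hD0]
      rcases Nat.eq_zero_or_pos m with h0 | hmp
      · simp [h0]
      · have hk1 : (1 : ℝ) ≤ m := by exact_mod_cast hmp
        have : 0 ≤ (m : ℝ) * (2 * d + m - 5) := by
          apply mul_nonneg (by linarith)
          linarith
        linarith
    linarith
  have hXm0 : 0 ≤ (X - m) / D0 := by
    have : r ≤ 2 + (X - m) / D0 := hmr
    linarith
  have hstep : S m - S (m + 1) ≤ (2 * (d + m) + 1) / D1 := by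
    have e1 : S m - S (m + 1) = (X - m) / D0 - (X - (m + 1 : ℕ)) / D1 := by
      simp only [S]
      rw [← hD0, ← hD1]
      ring
    rw [e1]
    push_cast
    have e2 : (X - m) / D0 - (X - (m + 1)) / D1
        = ((X - m) / D0 * (D1 - D0) + 1) / D1 := by
      field_simp
      ring
    rw [e2]
    apply div_le_div_of_nonneg_right _ hD1p.le
    rw [hdiff]
    have : (X - m) / D0 * (d + m - 2) ≤ 2 * (d + m - 2) :=
      mul_le_mul_of_nonneg_right hXm (by linarith)
    linarith
  have hbound : (2 * (d + m) + 1) / D1 ≤ η := by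
    apply step_bound d C K η m D1 hd3 hKd hK hη h1 h2 hmnn _ hD1p
    rw [hD1]
    push_cast
    ring
  have : S m - S (m + 1) ≤ η := hstep.trans hbound
  linarith

/-- Density criterion. -/
theorem Icc_subset_derivedSet [Infinite F] (c : ℝ)
    (h : ∀ K : ℝ, ∃ A : Finset (PP F), nondeg A ∧ K ≤ A.card ∧
      K * A.card ≤ 3 - 2 * A.card + f1 A - f0 A ∧
      c ≤ ((9 : ℝ) - 5 * A.card + 3 * f1 A - 4 * f0 A) / (3 - 2 * A.card + f1 A - f0 A))
    (hc : 2 < c) :
    Set.Icc 2 c ⊆ derivedSet (slopes F) := by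
  have hIoc : Set.Ioc 2 c ⊆ derivedSet (slopes F) := by
    rintro r ⟨hr2, hrc⟩
    rw [mem_derivedSet, accPt_iff_nhds]
    intro U hU
    obtain ⟨ε, hε, hεU⟩ := Metric.mem_nhds_iff.mp hU
    set η := ε / 2 with hη
    have hηpos : 0 < η := by positivity
    set K := max 1 (20 / η) with hK
    obtain ⟨A, hA, hKc, hC, hs⟩ := h K
    have hK1 : 1 ≤ K := le_max_left _ _
    have hK2 : 20 / η ≤ K := le_max_right _ _
    have hKpos : 0 < K := by linarith
    have hcpos : (0 : ℝ) < A.card := by linarith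
    have h1 : 10 / K ≤ η := by
      rw [div_le_iff₀ hKpos]
      rw [div_le_iff₀ hηpos] at hK2
      linarith
    have h2 : 20 / (A.card : ℝ) ≤ η := by
      rw [div_le_iff₀ hcpos]
      rw [div_le_iff₀ hηpos] at hK2
      nlinarith
    obtain ⟨s, hs1, hs2, hs3⟩ := exists_slope_near A hA c K hK1 hC hs r hr2 hrc η hηpos h1 h2
    refine ⟨s, ⟨hεU ?_, hs1⟩, hs3.ne⟩
    rw [Metric.mem_ball, Real.dist_eq, abs_lt]
    constructor <;> linarith
  have hcl : IsClosed (derivedSet (slopes F)) := isClosed_derivedSet (slopes F)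
  have : Set.Icc 2 c = closure (Set.Ioc 2 c) := (closure_Ioc hc.ne).symm
  rw [this]
  exact closure_minimal hIoc hcl

end Pool.Agent.Work.MP_b25393_ag.Str
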