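import Pool.Agent.Work.MP_b25393_ag.Str.Base

/-! Counting inequalities around a point of maximal multiplicity. -/

set_option autoImplicit false

open scoped LinearAlgebra.Projectivization

namespace Pool.Agent.Work.MP_b25393_ag.Str

open Projectivization Matrix Filter Topology
open scoped Classical

variable {F : Type*} [Field F]

/-- the second Chern number -/
noncomputable def CC (A : Finset (PP F)) : ℝ := 3 - 2 * A.card + f1 A - f0 A

/-- the excess of the first Chern number over twice the second -/
noncomputable def EE (A : Finset (PP F)) : ℝ := 3 - A.card + f1 A - 2 * f0 A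

lemma f1_sub_f0 (A : Finset (PP F)) :
    (f1 A : ℝ) - f0 A = ∑ p ∈ verts A, ((mult A p : ℝ) - 1) := by
  rw [Finset.sum_sub_distrib, Finset.sum_const, nsmul_eq_mul]
  unfold f0 f1
  push_cast
  ring

lemma f1_sub_two_f0 (A : Finset (PP F)) :
    (f1 A : ℝ) - 2 * f0 A = ∑ p ∈ verts A, ((mult A p : ℝ) - 2) := by
  rw [Finset.sum_sub_distrib, Finset.sum_const, nsmul_eq_mul]
  unfold f0 f1
  push_cast
  ring

/-- the lines of `A` not through `P` -/
noncomputable def off (A : Finset (PP F)) (P : PP F) : Finset (PP F) :=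
  A.filter (fun L => ¬ inc P L)

lemma card_off (A : Finset (PP F)) (P : PP F) : mult A P + (off A P).card = A.card := by
  unfold mult off
  exact Finset.card_filter_add_card_filter_not (s := A) (fun L => inc P L)

lemma mult_off_le (A : Finset (PP F)) (P p : PP F) (hp : p ≠ P) :
    mult A p ≤ mult (off A P) p + 1 := by
  have h1 : mult A p = ((A.filter (fun L => inc p L)).filter (fun L => inc P L)).card
      + ((A.filter (fun L => inc p L)).filter (fun L => ¬ inc P L)).card :=
    (Finset.card_filter_add_card_filter_not _).symm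
  have h2 : ((A.filter (fun L => inc p L)).filter (fun L => inc P L)).card ≤ 1 := by
    rw [Finset.card_le_one]
    intro L hL M hM
    by_contra hne
    simp only [Finset.mem_filter] at hL hM
    exact hp (point_unique hne hL.1.2 hM.1.2 hL.2 hM.2)
  have h3 : ((A.filter (fun L => inc p L)).filter (fun L => ¬ inc P L)).card
      = mult (off A P) p := by
    unfold mult off
    rw [Finset.filter_filter, Finset.filter_filter]
    congr 1
    ext L
    simp only [Finset.mem_filter]
    tauto
  omega

/-- the sum of `m - 1` over the vertices different from `P` -/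
lemma pencil_count (A : Finset (PP F)) (P : PP F) :
    mult A P * (off A P).card ≤ ∑ p ∈ (verts A).erase P, (mult A p - 1) := by
  have h0 : mult A P * (off A P).card
      = ((A.filter (fun L => inc P L)) ×ˢ (off A P)).card := by
    rw [Finset.card_product]
    rfl
  rw [h0, Finset.card_eq_sum_card_fiberwise (f := fun LL : PP F × PP F => meet LL.1 LL.2)
    (t := (verts A).erase P)]
  · refine Finset.sum_le_sum fun p hp => ?_
    rw [Finset.mem_erase] at hp
    obtain ⟨hpP, hpv⟩ := hp
    rcases Finset.eq_empty_or_nonempty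
      (((A.filter (fun L => inc P L)) ×ˢ (off A P)).filter (fun LL => meet LL.1 LL.2 = p)) with h | h
    · rw [h]
      simp
    · obtain ⟨⟨L0, M0⟩, h⟩ := h
      simp only [Finset.mem_filter, Finset.mem_product, off] at h
      obtain ⟨⟨⟨hL0, hPL0⟩, hM0, hPM0⟩, hm⟩ := h
      have hne0 : L0 ≠ M0 := by
        rintro rfl
        exact hPM0 hPL0
      have hpL0 : inc p L0 := hm ▸ meet_inc_left hne0
      have hsub : (((A.filter (fun L => inc P L)) ×ˢ (off A P)).filter
          (fun LL => meet LL.1 LL.2 = p))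
          ⊆ ((A.filter (fun L => inc p L)).erase L0).image (fun M => (L0, M)) := by
        rintro ⟨L, M⟩ hLM
        simp only [Finset.mem_filter, Finset.mem_product, off] at hLM
        obtain ⟨⟨⟨hL, hPL⟩, hM, hPM⟩, hm'⟩ := hLM
        have hne : L ≠ M := by
          rintro rfl
          exact hPM hPL
        have hpL : inc p L := hm' ▸ meet_inc_left hne
        have hpM : inc p M := hm' ▸ meet_inc_right hne
        have hLL0 : L = L0 := by
          by_contra hne'
          exact hpP (point_unique hne' hpL hpL0 hPL hPL0)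
        subst hLL0
        rw [Finset.mem_image]
        refine ⟨M, ?_, rfl⟩
        rw [Finset.mem_erase, Finset.mem_filter]
        exact ⟨hne.symm, hM, hpM⟩
      refine (Finset.card_le_card hsub).trans ?_
      refine Finset.card_image_le.trans ?_
      rw [Finset.card_erase_of_mem (Finset.mem_filter.mpr ⟨hL0, hpL0⟩)]
      exact le_refl _
  · rintro ⟨L, M⟩ hLM
    simp only [Finset.coe_product, Set.mem_prod, Finset.mem_coe, Finset.mem_filter, off] at hLM
    obtain ⟨⟨hL, hPL⟩, hM, hPM⟩ := hLM
    have hne : L ≠ M := by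
      rintro rfl
      exact hPM hPL
    simp only [Finset.coe_erase, Set.mem_diff, Finset.mem_coe, Set.mem_singleton_iff]
    constructor
    · unfold verts
      exact Finset.mem_image.mpr ⟨(L, M), Finset.mem_offDiag.mpr ⟨hL, hM, hne⟩, rfl⟩
    · intro h
      exact hPM (h ▸ meet_inc_right hne)

/-- (a) -/
lemma CC_ge (A : Finset (PP F)) (P : PP F) (hP : 2 ≤ mult A P) :
    ((mult A P : ℝ) - 2) * (((off A P).card : ℝ) - 1) ≤ CC A := by
  have hPv : P ∈ verts A := mem_verts.mpr hP
  have h1 := pencil_count A P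
  have h2 : ((∑ p ∈ (verts A).erase P, (mult A p - 1) : ℕ) : ℝ)
      = ∑ p ∈ (verts A).erase P, ((mult A p : ℝ) - 1) := by
    push_cast
    refine Finset.sum_congr rfl fun p hp => ?_
    have := mem_verts.mp (Finset.mem_of_mem_erase hp)
    rw [Nat.cast_sub (by omega)]
    simp
  have h3 : (mult A P : ℝ) * (off A P).card ≤ ∑ p ∈ (verts A).erase P, ((mult A p : ℝ) - 1) := by
    rw [← h2]
    exact_mod_cast h1
  have h4 := f1_sub_f0 A
  rw [← Finset.add_sum_erase _ _ hPv] at h4
  have h5 : (A.card : ℝ) = mult A P + (off A P).card := by exact_mod_cast (card_off A P).symm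
  unfold CC
  rw [h5]
  nlinarith

/-- (b) -/
lemma EE_le (A : Finset (PP F)) (P : PP F) (hP : 2 ≤ mult A P) :
    EE A ≤ (((off A P).card : ℝ) - 1) * (((off A P).card : ℝ) - 2) / 2 := by
  have hPv : P ∈ verts A := mem_verts.mpr hP
  set B := off A P with hB
  have h1 : ∑ p ∈ (verts A).erase P, ((mult A p : ℝ) - 2)
      ≤ ∑ p ∈ (verts A).erase P, (((mult B p * (mult B p - 1) : ℕ) : ℝ) / 2) := by
    refine Finset.sum_le_sum fun p hp => ?_
    rw [Finset.mem_erase] at hp
    have h2 := mem_verts.mp hp.2
    have h3 := mult_off_le A P p hp.1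
    rw [← hB] at h3
    have h4 : (mult A p : ℝ) ≤ mult B p + 1 := by exact_mod_cast h3
    obtain ⟨a, ha⟩ : ∃ a, mult B p = a + 1 := ⟨mult B p - 1, by omega⟩
    rw [ha] at h4 ⊢
    rw [Nat.add_sub_cancel]
    push_cast at h4 ⊢
    have h5 : (0 : ℝ) ≤ a := by positivity
    have h6 : (a : ℝ) ≤ a * a := by
      rcases Nat.eq_zero_or_pos a with h0 | h0
      · simp [h0]
      · have : (1 : ℝ) ≤ a := by exact_mod_cast h0
        nlinarith
    nlinarith
  have h2 : ∑ p ∈ (verts A).erase P, (mult B p * (mult B p - 1)) ≤ B.card * (B.card - 1) := by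
    rw [← sum_mult B]
    have h3 : ∑ p ∈ (verts A).erase P, (mult B p * (mult B p - 1))
        = ∑ p ∈ ((verts A).erase P).filter (fun p => 2 ≤ mult B p), (mult B p * (mult B p - 1)) := by
      rw [Finset.sum_filter]
      refine Finset.sum_congr rfl fun p _ => ?_
      split_ifs with h
      · rfl
      · have : mult B p = 0 ∨ mult B p = 1 := by omega
        rcases this with h | h <;> simp [h]
    rw [h3]
    refine Finset.sum_le_sum_of_subset ?_
    intro p hp
    rw [Finset.mem_filter] at hp
    exact mem_verts.mpr hp.2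
  have h3 : ∑ p ∈ (verts A).erase P, (((mult B p * (mult B p - 1) : ℕ) : ℝ) / 2)
      ≤ ((B.card * (B.card - 1) : ℕ) : ℝ) / 2 := by
    rw [← Finset.sum_div]
    apply div_le_div_of_nonneg_right _ (by norm_num)
    rw [← Nat.cast_sum]
    exact_mod_cast h2
  have h4 : ((B.card * (B.card - 1) : ℕ) : ℝ) = (B.card : ℝ) * (B.card - 1) := by
    rcases Nat.eq_zero_or_pos B.card with h0 | h0
    · simp [h0]
    · rw [Nat.cast_mul, Nat.cast_sub h0]
      simp
  have h5 := f1_sub_two_f0 A
  rw [← Finset.add_sum_erase _ _ hPv] at h5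
  have h6 : (A.card : ℝ) = mult A P + B.card := by exact_mod_cast (card_off A P).symm
  unfold EE
  rw [h6]
  rw [h4] at h3
  nlinarith

/-- (c) -/
lemma CC_ge' (A : Finset (PP F)) (k : ℕ) (hk : 0 < k) (hmax : ∀ p, mult A p ≤ k) :
    (A.card : ℝ) * (A.card - 1) / k - 2 * A.card + 3 ≤ CC A := by
  have h1 : (A.card : ℝ) * (A.card - 1) = ∑ p ∈ verts A, ((mult A p : ℝ) * (mult A p - 1)) := by
    have h := sum_mult A
    have h4 : ∀ n : ℕ, ((n * (n - 1) : ℕ) : ℝ) = (n : ℝ) * (n - 1) := by
      intro n
      rcases Nat.eq_zero_or_pos n with h0 | h0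
      · simp [h0]
      · rw [Nat.cast_mul, Nat.cast_sub h0]
        simp
    rw [← h4, ← h, Nat.cast_sum]
    exact Finset.sum_congr rfl fun p _ => h4 _
  have h2 := f1_sub_f0 A
  have hk' : (0 : ℝ) < k := by exact_mod_cast hk
  have h3 : (A.card : ℝ) * (A.card - 1) / k ≤ f1 A - f0 A := by
    rw [h2, h1, div_le_iff₀ hk', Finset.sum_mul]
    refine Finset.sum_le_sum fun p hp => ?_
    have h5 := mem_verts.mp hp
    have h6 : (2 : ℝ) ≤ mult A p := by exact_mod_cast h5
    have h7 : (mult A p : ℝ) ≤ k := by exact_mod_cast hmax p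
    nlinarith
  unfold CC
  linarith

/-- (d) -/
lemma EE_ge (A : Finset (PP F)) : 3 - (A.card : ℝ) ≤ EE A := by
  have h : (2 : ℝ) * f0 A ≤ f1 A := by exact_mod_cast two_f0_le A
  unfold EE
  linarith

lemma EE_ge' (A : Finset (PP F)) (P : PP F) (hP : 2 ≤ mult A P) :
    1 - ((off A P).card : ℝ) ≤ EE A := by
  have hPv : P ∈ verts A := mem_verts.mpr hP
  have h5 := f1_sub_two_f0 A
  rw [← Finset.add_sum_erase _ _ hPv] at h5
  have h6 : (A.card : ℝ) = mult A P + (off A P).card := by exact_mod_cast (card_off A P).symm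
  have h7 : 0 ≤ ∑ p ∈ (verts A).erase P, ((mult A p : ℝ) - 2) := by
    refine Finset.sum_nonneg fun p hp => ?_
    have := mem_verts.mp (Finset.mem_of_mem_erase hp)
    have h8 : (2 : ℝ) ≤ mult A p := by exact_mod_cast this
    linarith
  unfold EE
  rw [h6]
  linarith

lemma exists_max (A : Finset (PP F)) (hA : 2 ≤ A.card) :
    ∃ P : PP F, 2 ≤ mult A P ∧ ∀ p, mult A p ≤ mult A P := by
  have hne : (verts A).Nonempty := by
    obtain ⟨L, hL, M, hM, hne⟩ := Finset.one_lt_card.mp (show 1 < A.card by omega)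
    exact ⟨meet L M, by
      unfold verts
      exact Finset.mem_image.mpr ⟨(L, M), Finset.mem_offDiag.mpr ⟨hL, hM, hne⟩, rfl⟩⟩
  obtain ⟨P, hP, hmax⟩ := Finset.exists_max_image (verts A) (mult A) hne
  refine ⟨P, mem_verts.mp hP, fun p => ?_⟩
  by_cases hp : p ∈ verts A
  · exact hmax p hp
  · have h1 := mem_verts.mp hP
    have h2 : ¬ 2 ≤ mult A p := fun h => hp (mem_verts.mpr h)
    omega

lemma CC_pos (A : Finset (PP F)) (hA : nondeg A) : 0 < CC A := by
  obtain ⟨P, hP, hmax⟩ := exists_max A (by have := hA.1; omega)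
  have hoff := card_off A P
  have hnd := hA.2 P
  by_cases hk : mult A P = 2
  · have h1 := CC_ge' A 2 (by norm_num) (fun p => by have := hmax p; omega)
    have h2 : (4 : ℝ) ≤ A.card := by
      have : 4 ≤ A.card := by omega
      exact_mod_cast this
    push_cast at h1
    nlinarith
  · have h1 := CC_ge A P hP
    have h2 : (3 : ℝ) ≤ mult A P := by
      have : 3 ≤ mult A P := by omega
      exact_mod_cast this
    have h3 : (2 : ℝ) ≤ (off A P).card := by
      have : 2 ≤ (off A P).card := by omega
      exact_mod_cast this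
    nlinarith

lemma slope_eq_two_add (A : Finset (PP F)) (hA : nondeg A) : slope A = 2 + EE A / CC A := by
  have h := (CC_pos A hA).ne'
  have h2 : slope A = ((9 : ℝ) - 5 * A.card + 3 * f1 A - 4 * f0 A) / CC A := rfl
  rw [h2, div_eq_iff h, add_mul, div_mul_cancel₀ _ h]
  unfold CC EE
  ring

end Pool.Agent.Work.MP_b25393_ag.Str
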